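import Pool.Agent.Q155.BP.Fact
import Pool.Agent.Q155.KG.KF
import Pool.Agent.Q155.KG.Crv

/-!
# The parity conjecture for all Boolean functions of the divisors of almost every integer

`E^D : y² = x³ - 2835 D² x - 71442 D³` is the quadratic twist by `D` of the curve `X_0(49)` (complex multiplication by
`ℤ[(1 + √-7)/2]`); the class consists of the squarefree positive integers whose prime factors are `1` modulo `4`. A member
`D` of the class is GOOD if `E^D(ℚ)` is finite, `Ш(E^D/ℚ)[2] = 0` and the analytic rank is `0`; then the parity conjecture and the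
conjecture of Birch and Swinnerton-Dyer (rank part) hold for `E^D` with rank and analytic rank `0`. For an integer
`D > 0` let `m = part D` be the product of its prime factors `1` modulo `4`, and `ω` the number of these primes. For `N`, `e` in
the class the twist `E^{N ∘ e}`, `N ∘ e = N e / gcd(N, e)²`, is the twist by `e` of `E^N`.

There is ONE set `S` of positive integers, of NATURAL DENSITY `1`, and of relative density `1` also in the class, such
that the following holds for all large `D` in `S`.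

* (1) FACTORIZATIONS. Consider the `c ^ ω` factorizations `m = d_1 ⋯ d_c` and the `2 ^ c - 2` proper partial products
  `∏_{i ∈ A} d_i`, with arbitrary members `N_A` of the class (nothing is assumed about the curves `E^{N_A}`): the twists by
  `N_A ∘ ∏_{i ∈ A} d_i`, `A` in a set `M` of proper nonempty subsets `A` of `{1, …, c}`, behave like INDEPENDENT random variables.
* (2) BOOLEAN FUNCTIONS. Consider the `2 ^ (n ω)` tuples `(d_1, …, d_n)` of divisors of `m` and the Boolean functions of `n`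
  divisors: the functions `F(d)` generated from the divisors `d_i` by `gcd`, `lcm` and `d ↦ m / d`. There are
  `2 ^ (2 ^ n) - 2` which are not constant, and the twists by `N_F ∘ F(d)`, `F` in any set `M` of nonconstant Boolean
  functions, behave like INDEPENDENT random variables.

Independence means (`Laws`), for every `ε > 0` and with `κ = ∏ (1 - 2 ^ (-2 i - 1)) = 0.4194…`:
* for every subset `Q` of `M` the share of the factorizations (tuples) for which exactly the twists of `Q` are good is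
  within `ε` of `κ ^ #Q (1 - κ) ^ (#M - #Q)`; in particular the parity conjecture and the rank part of the conjecture of Birch
  and Swinnerton-Dyer hold for ALL the twists for a share of at least `κ ^ #M - ε`, and for at least one of them for a
  share of at least `1 - (1 - κ) ^ #M - ε`;
* the share for which the frequency of the good twists differs from `κ` by `η` or more is at most `2 exp(- η² #M / 4) + ε`;
* simultaneous bounds of the ranks: for all numbers `b_j` the share for which the rank of the `j`-th twist is at most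
  `2 b_j` for all `j` in `M` is at least `∏ (α_0 + ⋯ + α_{b_j}) - ε`, `α_r = κ / ((2 - 1) (4 - 1) ⋯ (2 ^ r - 1))`, `∑ α_r = 1`.

(`S` does not depend on `c`, `n`, `M`, the `N_j` and `ε`, but how large `D` must be does.) The proportion of the good twists in the
class, and laws for linear forms `N ∏_{i ∈ T} d_i` (symmetric differences only), are the subject of earlier results of the
pool; `gcd`, `lcm`, complements and factorizations are new: the Boolean functions are not linear over `𝔽_2`.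

The L-function is the Euler product over the primes which do not divide `42 D`; at the other primes the Euler factor is
`1` or does not vanish at `s = 1`, so that the analytic ranks are the same. The parity of the analytic rank is the root number.
-/

set_option autoImplicit false

open Finset Filter

namespace Pool.Agent.Results.MP_577099_nt.BooleanFunctionsOfDivisors

/-- the twist `E^D : y² = x³ + a D² x + b D³` of `X_0(49) : y² = x³ + a x + b`, `a = -2835`, `b = -71442` -/
def E (D : ℤ) : WeierstrassCurve ℚ :=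
  { a₁ := 0, a₂ := 0, a₃ := 0, a₄ := ((-2835 * D ^ 2 : ℤ) : ℚ), a₆ := ((-71442 * D ^ 3 : ℤ) : ℚ) }

open Classical in
/-- the rank of `E^D(ℚ)` -/
noncomputable def rank (D : ℤ) : ℕ := Module.finrank ℤ (E D).toAffine.Point

/-- the number of the affine points of `E^D` modulo `p` -/
noncomputable def points (D : ℤ) (p : ℕ) : ℕ :=
  Nat.card {q : ZMod p × ZMod p //
    q.2 ^ 2 = q.1 ^ 3 + ((-2835 * D ^ 2 : ℤ) : ZMod p) * q.1 + ((-71442 * D ^ 3 : ℤ) : ZMod p)}

open Classical in
/-- `F` is entire and is, for `Re s > 3/2`, the Euler product of the L-function of `E^D` over the primes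
which do not divide `42 D` -/
def IsL (D : ℤ) (F : ℂ → ℂ) : Prop :=
  Differentiable ℂ F ∧ ∀ s : ℂ, (3 : ℝ) / 2 < s.re →
    HasProd (fun p : ℕ => if p.Prime ∧ ¬ ((p : ℤ) ∣ 42 * D) then
      (1 - ((p : ℂ) - (points D p : ℂ)) * (p : ℂ) ^ (-s) + (p : ℂ) ^ (1 - 2 * s))⁻¹ else 1) (F s)

/-- the L-function has an entire continuation, and the analytic rank is `r` -/
def AnalyticRank (D : ℤ) (r : ℕ) : Prop := ∃ F : ℂ → ℂ, IsL D F ∧ analyticOrderAt F 1 = r

/-- the parity conjecture for `E^D` -/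
def Parity (D : ℤ) : Prop := ∃ r : ℕ, AnalyticRank D r ∧ (-1 : ℤ) ^ rank D = (-1) ^ r

/-- the conjecture of Birch and Swinnerton-Dyer for `E^D`, rank part -/
def RankFormula (D : ℤ) : Prop := AnalyticRank D (rank D)

/-- `E^D(ℚ)` is finite, `Ш(E^D/ℚ)` has no element of order two, the analytic rank is zero -/
def Good (D : ℤ) : Prop :=
  Finite (E D).toAffine.Point ∧ (∀ x : Pool.Agent.TH841.SH.D.Sha (E D), 2 • x = 0 → x = 0) ∧
    AnalyticRank D 0

/-- the class: squarefree, all prime factors `1` modulo `4` -/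
def Class (D : ℕ) : Prop := Squarefree D ∧ ∀ p : ℕ, p.Prime → p ∣ D → p % 4 = 1

/-- the number `κ = (1 - 1/2) (1 - 1/8) (1 - 1/32) ⋯` -/
noncomputable def κ : ℝ := ∏' i : ℕ, (1 - (1 / 2 : ℝ) ^ (2 * i + 1))

/-- `α_r = κ / ((2 - 1) (4 - 1) ⋯ (2 ^ r - 1))` -/
noncomputable def α (r : ℕ) : ℝ := κ / ∏ i ∈ Finset.range r, ((2 : ℝ) ^ (i + 1) - 1)

/-- `N ∘ e`, the squarefree part of `N e` -/
def tw (N e : ℕ) : ℕ := N * e / Nat.gcd N e ^ 2

/-- the product of the prime factors `1` modulo `4` of `D` -/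
def part (D : ℕ) : ℕ := ∏ p ∈ D.primeFactors.filter (fun p => p % 4 = 1), p

open Classical in
/-- the number of the positive integers up to `X` with the property `P` -/
noncomputable def count (P : ℕ → Prop) (X : ℕ) : ℕ := ((Finset.Icc 1 X).filter P).card

open Classical in
/-- the share of the members of `I` with the property `P` -/
noncomputable def share {Ω : Type} (I : Finset Ω) (P : Ω → Prop) : ℝ :=
  ((I.filter P).card : ℝ) / I.card

open Classical in
/-- the number of the good twists -/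
noncomputable def number {Ω J : Type} (M : Finset J) (z : J → Ω → ℕ) (ω : Ω) : ℕ :=
  (M.filter fun j => Good (z j ω)).card

/-- the laws for the twists by the numbers `z j ω`, `j ∈ M`, where `ω` runs over `I` -/
def Laws {Ω J : Type} (I : Finset Ω) (M : Finset J) (z : J → Ω → ℕ) (ε : ℝ) : Prop :=
  (∀ Q ⊆ M, |share I (fun ω => ∀ j ∈ M, (Good (z j ω) ↔ j ∈ Q)) -
    κ ^ Q.card * (1 - κ) ^ (M.card - Q.card)| ≤ ε) ∧
  κ ^ M.card - ε ≤ share I (fun ω => ∀ j ∈ M, Parity (z j ω) ∧ RankFormula (z j ω)) ∧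
  1 - (1 - κ) ^ M.card - ε ≤ share I (fun ω => ∃ j ∈ M, Parity (z j ω) ∧ RankFormula (z j ω)) ∧
  (M.Nonempty → ∀ η : ℝ, 0 < η → share I (fun ω => η ≤ |(number M z ω : ℝ) / M.card - κ|) ≤
    2 * Real.exp (-(η ^ 2 * M.card / 4)) + ε) ∧
  ∀ b : J → ℕ, ∏ j ∈ M, (∑ r ∈ Finset.range (b j + 1), α r) - ε ≤
    share I (fun ω => ∀ j ∈ M, rank (z j ω) ≤ 2 * b j)

/-- the factorizations `m = d_1 ⋯ d_c` -/
def factorizations (c m : ℕ) : Finset (Fin c → ℕ) := Nat.finMulAntidiag c m

/-- the `n`-tuples of divisors of `m` -/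
def tuples (n m : ℕ) : Finset (Fin n → ℕ) := Fintype.piFinset fun _ : Fin n => m.divisors

/-- the value of the Boolean function `F` at the tuple `d` of divisors of `m`: the product of the primes `p ∣ m` for which
the set of the `i` with `p ∣ d_i` is a member of `F`. (`F` is the set of the rows of the truth table with the value true.) -/
def bool {n : ℕ} (F : Finset (Finset (Fin n))) (m : ℕ) (d : Fin n → ℕ) : ℕ :=
  ∏ p ∈ m.primeFactors.filter (fun p => (Finset.univ.filter fun i => p ∣ d i) ∈ F), p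

section proof

open Q155.BP
open Q283.GW
open Q283.LP (sqn prt lln_gen cE nJ fcc)
open Q283.GM (rk)
open Q283.GS (al)
open Q283.XF (nf)
open Q283.J2 (RZ49)
open Q155.NL (Cl Alm)
open Pool.Agent.Y19.QT (IsLFun)
open _root_.Q155.KG (cr)
open scoped Classical

lemma class_iff (D : ℕ) : Class D ↔ C4 D := by
  unfold Class C4 CF
  constructor
  · rintro ⟨h1, h2⟩
    exact ⟨h1, fun p hp => ⟨Nat.prime_of_mem_primeFactors hp,
      h2 p (Nat.prime_of_mem_primeFactors hp) (Nat.dvd_of_mem_primeFactors hp)⟩⟩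
  · rintro ⟨h1, h2⟩
    exact ⟨h1, fun p hp hd => (h2 p (Nat.mem_primeFactors.2 ⟨hp, hd, h1.ne_zero⟩)).2⟩

lemma isL_iff (D : ℤ) (F : ℂ → ℂ) :
    IsL D F ↔ IsLFun (-2835 * D ^ 2) (-71442 * D ^ 3) F := by
  have key : ∀ p : ℕ, p.Prime → ((p : ℤ) ∣ 42 * D ↔
      (p : ℤ) ∣ 2 * (-4 * (-2835 * D ^ 2) ^ 3 - 27 * (-71442 * D ^ 3) ^ 2)) := by
    intro p hp
    have hp' : Prime (p : ℤ) := Nat.prime_iff_prime_int.1 hp
    constructor
    · intro h1
      have e : 2 * (-4 * (-2835 * D ^ 2) ^ 3 - 27 * (-71442 * D ^ 3) ^ 2) =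
          (42 * D) * (-2 ^ 8 * 3 ^ 11 * 7 ^ 2 * D ^ 5) := by ring
      rw [e]
      exact Dvd.dvd.mul_right h1 _
    · intro h1
      have e : (42 * D) ^ 15 = (2 * (-4 * (-2835 * D ^ 2) ^ 3 - 27 * (-71442 * D ^ 3) ^ 2)) *
          (-(2 ^ 6 * 3 ^ 3 * 7 ^ 12 * D ^ 9)) := by ring
      have h2 : (p : ℤ) ∣ (42 * D) ^ 15 := by
        rw [e]
        exact Dvd.dvd.mul_right h1 _
      exact hp'.dvd_of_dvd_pow h2
  unfold IsL IsLFun
  refine and_congr Iff.rfl (forall_congr' fun s => forall_congr' fun _ => ?_)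
  refine Iff.of_eq (congrArg (fun f => HasProd f (F s)) (funext fun p => ?_))
  by_cases hp : p.Prime
  · by_cases h : (p : ℤ) ∣ 42 * D
    · rw [if_neg (fun h' => h'.2 h), if_neg (fun h' => h'.2 ((key p hp).1 h))]
    · rw [if_pos ⟨hp, h⟩, if_pos ⟨hp, fun h' => h ((key p hp).2 h')⟩]
      rfl
  · rw [if_neg (fun h' => hp h'.1), if_neg (fun h' => hp h'.1)]

lemma triv_cr {D : ℕ} (hD : C4 D) : (Finite (E D).toAffine.Point ∧
    ∀ x : Pool.Agent.TH841.SH.D.Sha (E D), 2 • x = 0 → x = 0) ↔ cr D = 0 := by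
  have h1 : (Finite (E D).toAffine.Point ∧
      ∀ x : Pool.Agent.TH841.SH.D.Sha (E D), 2 • x = 0 → x = 0) ↔ RZ49 D := by
    unfold RZ49
    refine and_congr Iff.rfl (forall_congr' fun x => ?_)
    rw [two_nsmul]
    rfl
  rw [h1]
  conv_lhs => rw [hD.eq]
  exact rz_CF hD.2

lemma ana_cr {D : ℕ} (hD : C4 D) (h : cr D = 0) : AnalyticRank D 0 := by
  obtain ⟨⟨G, hG, hG1⟩, -⟩ := zb_CF hD.2 h
  rw [← hD.eq] at hG
  exact ⟨G, (isL_iff _ G).2 hG, by rw [hG1]; rfl⟩

lemma good_cr {D : ℕ} (hD : C4 D) : Good D ↔ cr D = 0 :=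
  ⟨fun h => (triv_cr hD).1 ⟨h.1, h.2.1⟩, fun h =>
    ⟨((triv_cr hD).2 h).1, ((triv_cr hD).2 h).2, ana_cr hD h⟩⟩

lemma rank_cr {D : ℕ} (hD : C4 D) : rank D ≤ 2 * cr D := by
  refine le_trans (le_of_eq ?_) (_root_.Q155.KG.rank_Q hD)
  have key : ∀ i j : DecidableEq ℚ,
      (letI := i; Module.finrank ℤ (E D).toAffine.Point) =
        (letI := j; Module.finrank ℤ (E D).toAffine.Point) := by
    intro i j
    cases Subsingleton.elim i j
    rfl
  exact key _ _

lemma conj_of {D : ℕ} (hD : C4 D) (h : Good D) : Parity D ∧ RankFormula D := by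
  have h1 := rank_cr hD
  rw [(good_cr hD).1 h] at h1
  have h2 : rank D = 0 := by omega
  refine ⟨⟨0, h.2.2, by rw [h2]⟩, ?_⟩
  unfold RankFormula
  rw [h2]
  exact h.2.2

lemma share_mono {Ω : Type} {I : Finset Ω} {P Q : Ω → Prop} (h : ∀ ω ∈ I, P ω → Q ω) :
    share I P ≤ share I Q := by
  unfold share
  refine div_le_div_of_nonneg_right ?_ (Nat.cast_nonneg _)
  rw [Nat.cast_le]
  refine card_le_card fun d hd => ?_
  obtain ⟨h1, h2⟩ := mem_filter.1 hd
  exact mem_filter.2 ⟨h1, h d h1 h2⟩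

lemma share_or {Ω : Type} {I : Finset Ω} (hI : (0 : ℝ) < I.card) {P Q : Ω → Prop}
    (h : ∀ ω ∈ I, P ω ∨ Q ω) : 1 - share I Q ≤ share I P := by
  unfold share
  rw [sub_le_iff_le_add, ← add_div, le_div_iff₀ hI, one_mul, ← Nat.cast_add, Nat.cast_le]
  refine le_trans (card_le_card fun ω hω => ?_) (card_union_le _ _)
  rw [mem_union, mem_filter, mem_filter]
  exact (h ω hω).imp (fun h3 => ⟨hω, h3⟩) fun h3 => ⟨hω, h3⟩

lemma flm {β : Type} {s : Finset β} {p q : β → Prop} {i1 : DecidablePred p} {i2 : DecidablePred q}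
    (h : ∀ x ∈ s, p x → q x) : (s.filter p).card ≤ (s.filter q).card := by
  refine card_le_card fun x hx => ?_
  obtain ⟨h1, h2⟩ := mem_filter.1 hx
  exact mem_filter.2 ⟨h1, h x h1 h2⟩

section
variable {Ω C : Type} [Fintype C] {m : ℕ} {I : Finset Ω} {φ : (↥m.primeFactors → C) → Ω}
  (hcard : ∀ P : Ω → Prop, (I.filter P).card = (univ.filter fun t => P (φ t)).card)
  (hall : I.card = Fintype.card (↥m.primeFactors → C))
include hcard hall

lemma share_tr (P : Ω → Prop) : share I P =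
    ((univ.filter fun t => P (φ t)).card : ℝ) / (Fintype.card (↥m.primeFactors → C) : ℝ) := by
  unfold share
  rw [← hall]
  congr 1
  rw [← hcard P]

variable [Nonempty C] {M : Finset (Finset C)} {N : Finset C → ℕ} {z : Finset C → Ω → ℕ}
  (hz : ∀ (F : ↥M) (t : ↥m.primeFactors → C), C4 (z F.1 (φ t)) ∧ (z F.1 (φ t)).primeFactors =
    Fc (eG (M := M)) (fun F => (N F.1).primeFactors) t F) {ε : ℝ} (hε : 0 < ε)
  (hT : TC ρ49.Φ nf (eG (M := M)) (fun F => (N F.1).primeFactors) (ε / 2 ^ M.card) m.primeFactors)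
include hz hε hT

lemma laws_of : Laws I M z ε := by
  have hκ : al 0 = κ := Q283.LP.al0_c2
  have hκ1 : 0.4194 < κ := Pool.Agent.Y948.CQ.t_C2.2.2.2.1
  have hκ2 : κ < 0.4195 := Pool.Agent.Y948.CQ.t_C2.2.2.2.2
  have hle : ε / 2 ^ M.card ≤ ε := div_le_self hε.le (one_le_pow₀ (by norm_num))
  have hcM : Fintype.card ↥M = M.card := Fintype.card_coe M
  have hTpos : (0 : ℝ) < Fintype.card (↥m.primeFactors → C) := by
    exact_mod_cast Fintype.card_pos_iff.2 ⟨fun _ => Classical.arbitrary C⟩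
  have hI : (0 : ℝ) < (I.card : ℝ) := by rw [hall]; exact hTpos
  have hgd : ∀ (F : ↥M) (t : ↥m.primeFactors → C), Good (z F.1 (φ t)) ↔
      rk ρ49.Φ nf (Fc (eG (M := M)) (fun F => (N F.1).primeFactors) t F) = 0 := by
    intro F t
    rw [good_cr (hz F t).1]
    unfold cr
    rw [(hz F t).2]
  have key : ∀ Q : Finset ↥M, |share I (fun ω => ∀ F : ↥M, (Good (z F.1 ω) ↔ F ∈ Q)) -
      κ ^ Q.card * (1 - κ) ^ (M.card - Q.card)| ≤ ε / 2 ^ M.card := by
    intro Q
    have h1 := pat_TC hT Q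
    rw [hκ, hcM] at h1
    rw [share_tr hcard hall]
    refine le_trans (le_of_eq ?_) h1
    congr 3
    refine congrArg Nat.cast (fcc fun t _ => forall_congr' fun F => ?_)
    rw [hgd F t]
  have key2 : ∀ Q ⊆ M, |share I (fun ω => ∀ j ∈ M, (Good (z j ω) ↔ j ∈ Q)) -
      κ ^ Q.card * (1 - κ) ^ (M.card - Q.card)| ≤ ε / 2 ^ M.card := by
    intro Q hQ
    obtain ⟨Q', hQ'⟩ : ∃ Q' : Finset ↥M, Q' = univ.filter fun y => y.1 ∈ Q := ⟨_, rfl⟩
    have hcard' : Q'.card = Q.card := by
      rw [hQ']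
      refine Finset.card_bij (fun y _ => y.1) (fun y hy => (mem_filter.1 hy).2)
        (fun a _ b _ h => Subtype.ext h) fun y hy => ?_
      exact ⟨⟨y, hQ hy⟩, mem_filter.2 ⟨mem_univ _, hy⟩, rfl⟩
    have h3 := key Q'
    rw [hcard'] at h3
    refine le_trans (le_of_eq ?_) h3
    unfold share
    congr 4
    refine fcc fun ω _ => ?_
    constructor
    · intro h y
      rw [h y.1 y.2, hQ', mem_filter]
      exact ⟨fun h => ⟨mem_univ _, h⟩, fun h => h.2⟩
    · intro h y hy
      have h4 : Good (z y ω) ↔ (⟨y, hy⟩ : ↥M) ∈ Q' := h ⟨y, hy⟩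
      rw [h4, hQ', mem_filter]
      exact ⟨fun h => h.2, fun h => ⟨mem_univ _, h⟩⟩
  have hconj : ∀ j ∈ M, ∀ ω ∈ I, Good (z j ω) → Parity (z j ω) ∧ RankFormula (z j ω) := by
    intro j hj ω hω hG
    have h1 : ∃ t, φ t = ω := by
      by_contra h2
      push Not at h2
      have h3 := hcard (fun x => x = ω)
      have h4 : (univ.filter fun t => φ t = ω) = ∅ := filter_eq_empty_iff.2 fun t _ => h2 t
      rw [h4, card_empty, card_eq_zero, filter_eq_empty_iff] at h3
      exact h3 hω rfl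
    obtain ⟨t, rfl⟩ := h1
    exact conj_of (hz ⟨j, hj⟩ t).1 hG
  refine ⟨fun Q hQ => (key2 Q hQ).trans hle, ?_, ?_, fun hM η hη => ?_, fun b => ?_⟩
  · have h1 := (abs_le.1 (key2 M (Finset.Subset.refl _))).1
    rw [Nat.sub_self, pow_zero, mul_one] at h1
    have h2 : share I (fun ω => ∀ j ∈ M, (Good (z j ω) ↔ j ∈ M)) ≤
        share I (fun ω => ∀ j ∈ M, Parity (z j ω) ∧ RankFormula (z j ω)) :=
      share_mono fun ω hω h j hj => hconj j hj ω hω ((h j hj).2 hj)
    linarith
  · have h1 := (abs_le.1 (key2 ∅ (Finset.empty_subset _))).2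
    rw [card_empty, pow_zero, one_mul, Nat.sub_zero] at h1
    have h2 : 1 - share I (fun ω => ∀ j ∈ M, (Good (z j ω) ↔ j ∈ (∅ : Finset (Finset C)))) ≤
        share I (fun ω => ∃ j ∈ M, Parity (z j ω) ∧ RankFormula (z j ω)) := by
      refine share_or hI fun ω hω => ?_
      by_cases h3 : ∃ j ∈ M, Good (z j ω)
      · obtain ⟨j, hj, hG⟩ := h3
        exact Or.inl ⟨j, hj, hconj j hj ω hω hG⟩
      · push Not at h3
        exact Or.inr fun j hj => ⟨fun h => absurd h (h3 j hj), fun h => absurd h (notMem_empty j)⟩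
    linarith
  · have hM0 : 0 < M.card := card_pos.2 hM
    have h3 := lln_gen hI ↥M (fun y ω => Good (z y.1 ω)) (p := κ) (δ := ε / 2 ^ M.card)
      (by linarith) (by linarith) (fun Q => by
        have h4 := key Q
        rw [hcM]
        have h5 : cE I (fun ω => ∀ y : ↥M, (Good (z y.1 ω) ↔ y ∈ Q)) -
            κ ^ Q.card * (1 - κ) ^ (M.card - Q.card) * I.card =
            (share I (fun ω => ∀ y : ↥M, (Good (z y.1 ω) ↔ y ∈ Q)) -
              κ ^ Q.card * (1 - κ) ^ (M.card - Q.card)) * I.card := by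
          unfold share cE
          field_simp
        rw [h5, abs_mul, abs_of_pos hI]
        exact mul_le_mul_of_nonneg_right h4 hI.le) (by rw [hcM]; exact hM0) hη
    rw [hcM] at h3
    have h6 : (2 : ℝ) ^ M.card * (ε / 2 ^ M.card) = ε := by field_simp
    rw [h6] at h3
    have h7 : ∀ ω, number M z ω = nJ ↥M (fun y => Good (z y.1 ω)) := by
      intro ω
      unfold number nJ
      symm
      refine Finset.card_bij (fun y _ => y.1) (fun y hy => ?_) (fun a _ b _ h => Subtype.ext h)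
        fun y hy => ?_
      · exact mem_filter.2 ⟨y.2, (mem_filter.1 hy).2⟩
      · obtain ⟨h8, h9⟩ := mem_filter.1 hy
        exact ⟨⟨y, h8⟩, mem_filter.2 ⟨mem_univ _, h9⟩, rfl⟩
    unfold share
    rw [div_le_iff₀ hI]
    refine le_trans (le_of_eq ?_) h3
    unfold cE
    refine congrArg Nat.cast (fcc fun ω _ => ?_)
    rw [h7 ω]
  · have h1 := (abs_le.1 (tail_TC hT fun F => b F.1)).1
    have h2 : ∏ j : ↥M, ∑ r ∈ range (b j.1 + 1), al r = ∏ j ∈ M, ∑ r ∈ range (b j + 1), α r := by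
      rw [← Finset.prod_coe_sort M fun j => ∑ r ∈ range (b j + 1), α r]
      exact Finset.prod_congr rfl fun j _ => Finset.sum_congr rfl fun r _ => Q155.NL.al_cf r
    rw [h2] at h1
    have h3 : ((univ.filter fun t : ↥m.primeFactors → C => ∀ j : ↥M,
        rk ρ49.Φ nf (Fc (eG (M := M)) (fun F => (N F.1).primeFactors) t j) ≤ b j.1).card : ℝ) /
        (Fintype.card (↥m.primeFactors → C) : ℝ) ≤
          share I (fun ω => ∀ j ∈ M, rank (z j ω) ≤ 2 * b j) := by
      rw [share_tr hcard hall]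
      refine div_le_div_of_nonneg_right ?_ (Nat.cast_nonneg _)
      rw [Nat.cast_le]
      refine flm fun t _ ht j hj => ?_
      have h4 : rk ρ49.Φ nf (Fc (eG (M := M)) (fun F => (N F.1).primeFactors) t ⟨j, hj⟩) ≤ b j :=
        ht ⟨j, hj⟩
      have h5 : rank (z j (φ t)) ≤ 2 * cr (z j (φ t)) := rank_cr (hz ⟨j, hj⟩ t).1
      have h6 : cr (z j (φ t)) =
          rk ρ49.Φ nf (Fc (eG (M := M)) (fun F => (N F.1).primeFactors) t ⟨j, hj⟩) := by
        unfold cr
        rw [← (hz ⟨j, hj⟩ t).2]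
      omega
    linarith

end

theorem part_eq (D : ℕ) : part D = prt ρ49.Φ D := by
  unfold part prt
  refine Finset.prod_congr (Finset.ext fun p => ?_) fun _ _ => rfl
  rw [Finset.mem_filter, Finset.mem_filter]
  refine and_congr_right fun hp => ?_
  rw [Q283.GW.P49]
  exact ⟨fun h => ⟨Nat.prime_of_mem_primeFactors hp, h⟩, fun h => h.2⟩

theorem part_C4 (D : ℕ) : C4 (part D) := by
  rw [part_eq, ← Q155.NL.cl_iff]
  exact Q283.LP.prt_mem _ _

theorem class_cl (D : ℕ) : Class D ↔ Cl ρ49.Φ D := by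
  rw [class_iff, Q155.NL.cl_iff]

theorem laws_fac {S : ℕ → Prop} (hL : LawB ρ49 nf S) (c : ℕ) (hc : 0 < c)
    (M : Finset (Finset (Fin c))) (hM : ∀ A ∈ M, A.Nonempty ∧ A ≠ univ) (N : Finset (Fin c) → ℕ)
    (hN : ∀ A ∈ M, Class (N A)) {ε : ℝ} (hε : 0 < ε) : ∃ D₀ : ℕ, ∀ D : ℕ, D₀ ≤ D → S D →
      Laws (factorizations c (part D)) M (fun A d => tw (N A) (∏ i ∈ A, d i)) ε := by
  have : Nonempty (Fin c) := ⟨⟨0, hc⟩⟩
  obtain ⟨D₀, hD₀⟩ := eventually_atTop.1 (lawG hL (Fin c) M hM N (fun A hA => (class_cl _).1 (hN A hA))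
    (show 0 < ε / 2 ^ M.card by positivity))
  refine ⟨D₀, fun D hD hS => ?_⟩
  have h1 := hD₀ D hD hS
  rw [← part_eq] at h1
  have hm := part_C4 D
  exact laws_of (φ := fac) (card_fac hm.1) (card_fac_all hm.1)
    (fun A t => tw_imF hm (fun A hA => (class_iff _).1 (hN A hA)) t A (fac_imF t A.1)) hε h1

theorem laws_bool {S : ℕ → Prop} (hL : LawB ρ49 nf S) (n : ℕ)
    (M : Finset (Finset (Finset (Fin n)))) (hM : ∀ F ∈ M, F.Nonempty ∧ F ≠ univ)
    (N : Finset (Finset (Fin n)) → ℕ) (hN : ∀ F ∈ M, Class (N F)) {ε : ℝ} (hε : 0 < ε) :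
    ∃ D₀ : ℕ, ∀ D : ℕ, D₀ ≤ D → S D →
      Laws (tuples n (part D)) M (fun F d => tw (N F) (bool F (part D) d)) ε := by
  obtain ⟨D₀, hD₀⟩ := eventually_atTop.1 (lawG hL (Finset (Fin n)) M hM N
    (fun A hA => (class_cl _).1 (hN A hA)) (show 0 < ε / 2 ^ M.card by positivity))
  refine ⟨D₀, fun D hD hS => ?_⟩
  have h1 := hD₀ D hD hS
  rw [← part_eq] at h1
  have hm := part_C4 D
  have hb : ∀ (F : Finset (Finset (Fin n))) (d : Fin n → ℕ), bool F (part D) d = bo F (part D) d := by
    intro F d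
    rfl
  refine laws_of (φ := tu) (fun P => ?_) ?_ (fun F t => ?_) hε h1
  · exact card_dT hm.1 P
  · exact card_dT_all hm.1
  · rw [hb]
    exact tw_imF hm (fun A hA => (class_iff _).1 (hN A hA)) t F (bo_imF t F.1)

end proof

theorem result :
    -- good members of the class
    (∀ D : ℕ, Class D → Good D → Parity D ∧ RankFormula D ∧ rank D = 0) ∧
    -- the twists, the factorizations, the tuples
    (∀ N e : ℕ, Class N → Class e → Class (tw N e) ∧ N * e = tw N e * Nat.gcd N e ^ 2) ∧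
    (∀ D : ℕ, Class (part D) ∧
      (∀ c, (factorizations c (part D)).card = c ^ (part D).primeFactors.card) ∧
      ∀ n, (tuples n (part D)).card = 2 ^ (n * (part D).primeFactors.card)) ∧
    -- the Boolean functions
    (∀ (n m : ℕ) (d : Fin n → ℕ), Squarefree m → (∀ i, d i ∣ m) →
      (∀ i, bool (Finset.univ.filter fun s => i ∈ s) m d = d i) ∧
      (∀ F, bool Fᶜ m d = m / bool F m d) ∧
      (∀ F G, bool (F ∩ G) m d = Nat.gcd (bool F m d) (bool G m d)) ∧
      ∀ F G, bool (F ∪ G) m d = Nat.lcm (bool F m d) (bool G m d)) ∧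
    -- the laws
    (∃ S : ℕ → Prop, Tendsto (fun X : ℕ => (count S X : ℝ) / X) atTop (nhds 1) ∧
      Tendsto (fun X : ℕ => (count (fun D => Class D ∧ S D) X : ℝ) / count Class X) atTop (nhds 1) ∧
      (∀ (c : ℕ) (M : Finset (Finset (Fin c))) (N : Finset (Fin c) → ℕ), 0 < c →
        (∀ A ∈ M, A.Nonempty ∧ A ≠ Finset.univ ∧ Class (N A)) → ∀ ε : ℝ, 0 < ε →
        ∃ D₀ : ℕ, ∀ D : ℕ, D₀ ≤ D → S D →
          Laws (factorizations c (part D)) M (fun A d => tw (N A) (∏ i ∈ A, d i)) ε) ∧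
      ∀ (n : ℕ) (M : Finset (Finset (Finset (Fin n)))) (N : Finset (Finset (Fin n)) → ℕ),
        (∀ F ∈ M, F.Nonempty ∧ F ≠ Finset.univ ∧ Class (N F)) → ∀ ε : ℝ, 0 < ε →
        ∃ D₀ : ℕ, ∀ D : ℕ, D₀ ≤ D → S D →
          Laws (tuples n (part D)) M (fun F d => tw (N F) (bool F (part D) d)) ε) ∧
    HasSum α 1 ∧ 0.4194 < κ ∧ κ < 0.4195 := by
  classical
  refine ⟨fun D hD hG => ?_, fun N e hN he => ?_, fun D => ?_, fun n m d hm hd => ?_, ?_, ?_,
    Pool.Agent.Y948.CQ.t_C2.2.2.2⟩
  · have h1 := (class_iff D).1 hD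
    have h2 := rank_cr h1
    rw [(good_cr h1).1 hG] at h2
    exact ⟨(conj_of h1 hG).1, (conj_of h1 hG).2, by omega⟩
  · have h1 := (class_iff N).1 hN
    have h2 := (class_iff e).1 he
    refine ⟨(class_iff _).2 (Q155.NL.tw_class h1 h2), ?_⟩
    have h3 : Nat.gcd N e ^ 2 ∣ N * e := by
      rw [pow_two]
      exact Nat.mul_dvd_mul (Nat.gcd_dvd_left _ _) (Nat.gcd_dvd_right _ _)
    unfold tw
    rw [Nat.div_mul_cancel h3]
  · have h1 := part_C4 D
    refine ⟨(class_iff _).2 h1, fun c => ?_, fun n => ?_⟩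
    · have h2 : (factorizations c (part D)).card = Fintype.card (↥(part D).primeFactors → Fin c) :=
        Q155.BP.card_fac_all h1.1
      rw [h2, Fintype.card_fun, Fintype.card_fin, Fintype.card_coe]
    · have h2 : (tuples n (part D)).card =
          Fintype.card (↥(part D).primeFactors → Finset (Fin n)) := Q155.BP.card_dT_all h1.1
      rw [h2, Fintype.card_fun, Fintype.card_finset, Fintype.card_fin, Fintype.card_coe, ← pow_mul]
  · have hb : ∀ (F : Finset (Finset (Fin n))), bool F m d = Q155.BP.bo F m d := by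
      intro F
      rfl
    refine ⟨fun i => ?_, fun F => ?_, fun F G => ?_, fun F G => ?_⟩
    · rw [hb, ← Q155.BP.bo_proj hm hd i]
    · rw [hb, hb, ← Q155.BP.bo_compl hm hd F]
    · rw [hb, hb, hb, ← Q155.BP.bo_inter hm hd F G]
    · rw [hb, hb, hb, ← Q155.BP.bo_union hm hd F G]
  · obtain ⟨S, hS, hS', hM, hL, hD⟩ := Q155.BP.main49
    have hcc : ∀ X : ℕ, count Class X = Q155.NL.cnt (Q155.NL.Cl Q283.GW.ρ49.Φ) X := by
      intro X
      unfold count Q155.NL.cnt Q155.NL.cs
      exact Q283.LP.fcc fun D _ => class_cl D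
    refine ⟨S, ?_, ?_, fun c M N hc hM' ε hε => ?_, fun n M N hM' ε hε => ?_⟩
    · have h1 := Q155.NL.tendsto_of_alm (C := fun _ => True) ⟨1, le_rfl, trivial⟩ hS
      refine h1.congr fun X => ?_
      have h2 : Q155.NL.cnt (fun _ => True) X = X := by
        have h0 : Q155.NL.cs (fun _ => True) X = Finset.Icc 1 X := by
          ext D
          rw [Q155.NL.mem_cs, Finset.mem_Icc]
          exact ⟨fun h => h.1, fun h => ⟨h, trivial⟩⟩
        unfold Q155.NL.cnt
        rw [h0, Nat.card_Icc]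
        omega
      rw [h2]
      congr 2
      unfold Q155.NL.cnt Q155.NL.cs count
      congr 1
      ext D
      simp
    · have h1 := Q155.NL.tendsto_of_alm (C := Q155.NL.Cl Q283.GW.ρ49.Φ)
        ⟨1, le_rfl, squarefree_one, by simp⟩ hS'
      refine h1.congr fun X => ?_
      rw [hcc]
      congr 2
      unfold Q155.NL.cnt Q155.NL.cs count
      exact Q283.LP.fcc fun D _ => and_congr_left fun _ => (class_cl D).symm
    · exact laws_fac hL c hc M (fun A hA => ⟨(hM' A hA).1, fun h => (hM' A hA).2.1 (by rw [h])⟩) N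
        (fun A hA => (hM' A hA).2.2) hε
    · exact laws_bool hL n M (fun A hA => ⟨(hM' A hA).1, fun h => (hM' A hA).2.1 (by rw [h])⟩) N
        (fun A hA => (hM' A hA).2.2) hε
  · have h1 : α = Q155.KG.al := funext fun r => rfl
    rw [h1]
    exact Q155.NL.hasSum_al

end Pool.Agent.Results.MP_577099_nt.BooleanFunctionsOfDivisors
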