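import Mathlib
import Pool.Agent.Q1.CD.Par

/-!
# The parity conjecture for the cubic twists `x³ + y³ = D m_k` in every sequence of multipliers

`E_n : y² + n y = x³` is `3`-isogenous to the cubic twist `x³ + y³ = n`. A number `n` is a BASE number if it
is cube-free, prime to `3`, not `±1` modulo `9`, with exactly one prime divisor `2` modulo `3`; it is GOOD if
`E_n(ℚ)` is finite and `Ш(E_n/ℚ)[3^∞] = 0`. `ParityZero n`: the rank of `E_n(ℚ)` is `0`, the `L`-function
(Euler product over all primes) is entire and not `0` at `s = 1`, and every sign `w` of a functional equation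
`Λ(s) = w Λ(2 - s)`, `Λ(s) = N^(s/2) (2π)^(-s) Γ(s) L(E_n, s)`, `N > 0`, is `1 = (-1)^rank`.

* If a base number `n` is good, then `ParityZero n`.
* Let `m_0, m_1, m_2, …` be ANY infinite sequence of different squarefree numbers, `1` modulo `9`, with all
  prime divisors `1` modulo `3`, and let `D` run through all squarefree base numbers, ordered by size (at
  least `a X / sqrt (log X)` of them up to `X`). For every `n` and `ε > 0` the set of the `D` for which the
  frequency of the good numbers among `D m_0, …, D m_{n-1}` differs from `c = ∏_{i ≥ 1} (1 - 3^{-i})`,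
  `0.56 < c < 0.5602`, by at least `ε` has a relative density, which is at most `2 exp (- ε² n / 4)`; and for
  every `N`, for `100 %` of the `D` at least `N` of the numbers `D m_0, D m_1, D m_2, …` are good and have
  `ParityZero`.
-/

set_option autoImplicit false

open scoped Classical

namespace Pool.Agent.Results.MP_577099_nt.EverySequenceOfTwists

open Filter
open Pool.Agent.Q1.CD

/-- the multipliers: different squarefree numbers, `1` modulo `9`, all prime divisors `1` modulo `3` -/
structure Multipliers (m : ℕ → ℕ) : Prop where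
  inj : Function.Injective m
  sqf : ∀ k, Squarefree (m k)
  nine : ∀ k, m k % 9 = 1
  one : ∀ (k p : ℕ), p.Prime → p ∣ m k → p % 3 = 1

/-- the number of the squarefree base numbers `D ≤ X` with the property `P` -/
noncomputable def count (P : ℕ → Prop) (X : ℕ) : ℕ :=
  ((Finset.Icc 1 X).filter fun D => Squarefree D ∧ IsBase D ∧ P D).card

/-- the proportion of the squarefree base numbers `D ≤ X` with the property `P` -/
noncomputable def proportion (P : ℕ → Prop) (X : ℕ) : ℝ :=
  (count P X : ℝ) / (count (fun _ => True) X : ℝ)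

/-- the number of the `k < n` for which `D m_k` is good -/
noncomputable def goodCount (m : ℕ → ℕ) (n D : ℕ) : ℕ :=
  ((Finset.range n).filter fun k => Good (D * m k)).card

/-- `c = ∏_{i ≥ 1} (1 - 3^{-i})` -/
noncomputable def c : ℝ := ∏' i : ℕ, (1 - (1 / 3 : ℝ) ^ (i + 1))

theorem seq {m : ℕ → ℕ} (h : Multipliers m) : Q283.Q3N.Seq m where
  inj := h.inj
  adm k := ⟨h.nine k, fun p hp hd => ⟨h.one k p hp hd, fun h3 => by
    have h6 : p * p ∣ m k := (Dvd.intro p (by ring)).trans h3
    exact hp.one_lt.ne' (Nat.isUnit_iff.1 (h.sqf k p h6))⟩⟩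
  sqf := h.sqf

/-- translation of the proportions -/
theorem prop_eq (P Q : ℕ → Prop) (h : ∀ D, Squarefree D → Pool.Agent.Y703.CT.Cls D → (Q D ↔ P D))
    (X : ℕ) :
    (((Q283.Q3N.SN X).filter fun D => Q D).card : ℝ) / ((Q283.Q3N.SN X).card : ℝ) =
      proportion P X := by
  unfold proportion count Q283.Q3N.SN
  rw [Finset.filter_filter]
  congr 2
  · refine Pool.Agent.XLK.fcc fun D _ => ?_
    rw [base_iff, ← and_assoc]
    exact and_congr_right fun hD => h D hD.1 hD.2
  · refine Pool.Agent.XLK.fcc fun D _ => ?_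
    rw [base_iff]
    exact ⟨fun h => ⟨h.1, h.2, trivial⟩, fun h => ⟨h.1, h.2.1⟩⟩

theorem ns_iff {n : ℕ} (hC : Pool.Agent.Y703.CT.Cls n) :
    Pool.Agent.Y703.CT.NoSplit n ↔ Good n := by
  rw [← Q283.Q3N.triv_iff hC, ← good_iff]

/-- **Main result.** -/
theorem result :
    (∀ n : ℕ, IsBase n → Good n → ParityZero n) ∧
    (∀ m : ℕ → ℕ, Multipliers m →
      (∀ n : ℕ, 0 < n → ∀ ε : ℝ, 0 < ε → ∃ l : ℝ, l ≤ 2 * Real.exp (-(ε ^ 2 * n / 4)) ∧
        Tendsto (proportion fun D => ε ≤ |(goodCount m n D : ℝ) / n - c|) atTop (nhds l)) ∧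
      (∀ N : ℕ, Tendsto (proportion fun D => ∃ F : Finset ℕ, F.card = N ∧ ∀ k ∈ F,
        Good (D * m k) ∧ ParityZero (D * m k)) atTop (nhds 1))) ∧
    (∃ (a : ℝ) (X₀ : ℕ), 0 < a ∧ ∀ X : ℕ, X₀ ≤ X →
      a * (X / Real.sqrt (Real.log X)) ≤ (count (fun _ => True) X : ℝ)) ∧
    0.56 < c ∧ c < 0.5602 := by
  refine ⟨fun n hn hg => parity_of_good ((base_iff n).1 hn) hg, fun m hm => ?_, ?_, ?_⟩
  · have hs := seq hm
    have hCC : ∀ D, Squarefree D → Pool.Agent.Y703.CT.Cls D → ∀ k,
        Pool.Agent.Y703.CT.Cls (D * m k) := fun D hD hC k =>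
      Q283.Q3N.cls_mul' hD hC (hs.adm k) (hm.sqf k)
    have hcnt : ∀ n D : ℕ, Squarefree D → Pool.Agent.Y703.CT.Cls D →
        ((Finset.range n).filter fun k => Pool.Agent.Y703.CT.NoSplit (D * m k)).card =
          goodCount m n D := by
      intro n D hD hC
      unfold goodCount
      exact Pool.Agent.XLK.fcc fun k _ => ns_iff (hCC D hD hC k)
    refine ⟨fun n hn ε hε => ?_, fun N => ?_⟩
    · obtain ⟨l, hl, h⟩ := Q283.Q3N.lln_exp hs n hn ε hε
      refine ⟨l, hl, h.congr fun X => ?_⟩
      exact prop_eq (fun D => ε ≤ |(goodCount m n D : ℝ) / n - c|) _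
        (fun D hD hC => by rw [hcnt n D hD hC]; rfl) X
    · refine (Q283.Q3N.manyQ hs N).congr fun X => ?_
      refine prop_eq _ _ (fun D hD hC => ?_) X
      refine exists_congr fun F => and_congr_right fun _ => forall_congr' fun k =>
        forall_congr' fun _ => ?_
      have h1 := ns_iff (hCC D hD hC k)
      exact ⟨fun h => ⟨h1.1 h, parity_of_good (hCC D hD hC k) (h1.1 h)⟩, fun h => h1.2 h.1⟩
  · obtain ⟨a, X₀, ha, h⟩ := Q283.Q3N.low_SN
    refine ⟨a, X₀, ha, fun X hX => (h X hX).trans (le_of_eq ?_)⟩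
    unfold count Q283.Q3N.SN
    congr 1
    refine Pool.Agent.XLK.fcc fun D _ => ?_
    rw [base_iff]
    exact ⟨fun h => ⟨h.1, h.2, trivial⟩, fun h => ⟨h.1, h.2.1⟩⟩
  · obtain ⟨h1, -, -, h4⟩ := Pool.Agent.Y461.CX.t_C3
    refine ⟨h4, ?_⟩
    have h5 := (abs_le.1 (h1 10)).1
    have h6 : ∏ i ∈ Finset.range 10, (1 - (1 / 3 : ℝ) ^ (i + 1)) < 0.56015 := by
      norm_num [Finset.prod_range_succ]
    have h7 : (1 / 3 : ℝ) ^ 10 < 0.00002 := by norm_num
    have h8 : c = Pool.Agent.Y703.CX.c3 := rfl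
    rw [h8]
    linarith

end Pool.Agent.Results.MP_577099_nt.EverySequenceOfTwists
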