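import Mathlib
import Pool.Agent.Q1.CD.Par
import Pool.Agent.Q283.TQ.Elem

/-!
# The parity conjecture for the twists by almost all members of an explicit set of primes

`E_n : y² + n y = x³` is `3`-isogenous to `x³ + y³ = n`. A number `n` is a BASE number if it is cube-free,
prime to `3`, not `±1` modulo `9`, with exactly one prime divisor `2` modulo `3`; it is GOOD if `E_n(ℚ)` is
finite and `Ш(E_n/ℚ)[3^∞] = 0`. `ParityZero n`: the rank of `E_n(ℚ)` is `0`, the `L`-function (Euler product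
over all primes) is entire and not `0` at `s = 1`, and every sign `w` of a functional equation
`Λ(s) = w Λ(2 - s)`, `Λ(s) = N^(s/2) (2π)^(-s) Γ(s) L(E_n, s)`, `N > 0`, is `1 = (-1)^rank`. If a base number
`n` is good, then `ParityZero n`.

Let `D_1, …, D_n` be ANY cube-free numbers prime to `3` such that exactly one prime `q = 2` modulo `3`
divides each of them (with any number of primes `= 1` modulo `3`); nothing is assumed about the curves
`E_{D_i}`. A prime `ℓ = 1` modulo `3` is *allowed* if it does not divide the `D_i` and no `D_i ℓ` is `±1`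
modulo `9`; then the `D_i ℓ` are base numbers.

* The allowed primes have density `a / 3` among the primes `ℓ = 1` modulo `3`, where `a` is the
  number of the classes `r = 1, 4, 7` with `D_i r ≠ ±1` modulo `9` for all `i`.
* If `a > 0`, the proportion of the allowed primes `ℓ` for which ALL the `D_i ℓ` are good
  tends to the explicit constant `c(D_1, …, D_n)`: the proportion of the pairs `(a, b)` of functions
  with values in the field with three elements, `a` on the primes `= 1` modulo `3` that divide the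
  `D_i`, `b` on all primes that divide the `D_i`, such that for every `i` the system
  `∑_r v_r(D_i) log_p(r) (g_r - g_p) = a_p g_p` (`p ∣ D_i`, `p = 1` modulo `3`),
  `∑_r v_r(D_i) b_r g_r = 0` has only the solution `g = 0`; here `log_p` is the cubic logarithm
  modulo `p`. For these `ℓ` the parity conjecture holds, with rank `0`, for all the `E_{D_i ℓ}`.
* `c(D_1, …, D_n) > 0` if no prime `= 1` modulo `3` divides three of the `D_i`; for `n ≤ 2` both `a`
  and `c` are positive.
-/

set_option autoImplicit false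

open scoped Classical

namespace Pool.Agent.Results.MP_577099_nt.PrimeTwists

open Pool.Agent.Q1.CD

/-- `D` is prime to `3` and cube-free, and exactly one prime `q = 2` modulo `3` divides it. -/
def OneInert (D : ℕ) : Prop :=
  D ≠ 0 ∧ ¬ 3 ∣ D ∧ (∀ p : ℕ, p.Prime → ¬ p ^ 3 ∣ D) ∧
    ∃ q : ℕ, q.Prime ∧ q % 3 = 2 ∧ q ∣ D ∧ ∀ p : ℕ, p.Prime → p ∣ D → p ≠ q → p % 3 = 1

/-- The number of the primes `ℓ = 1` modulo `3` up to `X` with the property `T`. -/
noncomputable def count (T : ℕ → Prop) (X : ℕ) : ℕ :=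
  ((Finset.range (X + 1)).filter fun l => (l.Prime ∧ l % 3 = 1) ∧ T l).card

/-- The allowed primes. -/
def Allowed {n : ℕ} (D : Fin n → ℕ) (l : ℕ) : Prop :=
  ∀ i, ¬ l ∣ D i ∧ (D i * l) % 9 ≠ 1 ∧ (D i * l) % 9 ≠ 8

/-- The allowed primes for which all the `D_i ℓ` are good. -/
def AllGood {n : ℕ} (D : Fin n → ℕ) (l : ℕ) : Prop := Allowed D l ∧ ∀ i, Good (D i * l)

/-- The number of the classes `r = 1, 4, 7` with `D_i r ≠ ±1` modulo `9` for all `i`. -/
def classes {n : ℕ} (D : Fin n → ℕ) : ℕ :=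
  (({1, 4, 7} : Finset ℕ).filter fun r => ∀ i, (D i * r) % 9 ≠ 1 ∧ (D i * r) % 9 ≠ 8).card

/-- A primitive cube root of unity modulo `p`. -/
noncomputable def root (p : ℕ) : ZMod p :=
  if h : ∃ g : ZMod p, g ^ 2 + g + 1 = 0 then h.choose else 0

/-- The cubic logarithm modulo a prime `p = 1` modulo `3`: `n ^ ((p - 1) / 3) = root p ^ log p n`. -/
noncomputable def log (p n : ℕ) : ZMod 3 :=
  if h : ∃ c : ZMod 3, (n : ZMod p) ^ ((p - 1) / 3) = root p ^ c.val then h.choose else 0

/-- The linear system of `D`, with `a` on the diagonal and bordered by `b`, has only the solution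
zero. -/
def Nonsingular (D : ℕ) (a b : ℕ → ZMod 3) : Prop :=
  ∀ g : ℕ → ZMod 3,
    (∀ p ∈ D.primeFactors, p % 3 = 1 →
      ∑ r ∈ D.primeFactors, (D.factorization r : ZMod 3) * log p r * (g r - g p) = a p * g p) →
    ∑ r ∈ D.primeFactors, (D.factorization r : ZMod 3) * b r * g r = 0 →
    ∀ p ∈ D.primeFactors, g p = 0

/-- All the prime factors of the `D_i`. -/
def primes {n : ℕ} (D : Fin n → ℕ) : Finset ℕ := Finset.univ.biUnion fun i => (D i).primeFactors

/-- The prime factors `= 1` modulo `3` of the `D_i`. -/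
def primes1 {n : ℕ} (D : Fin n → ℕ) : Finset ℕ := (primes D).filter fun p => p % 3 = 1

/-- Extension of a function on a finite set by zero. -/
def ext (S : Finset ℕ) (u : S → ZMod 3) (q : ℕ) : ZMod 3 := if h : q ∈ S then u ⟨q, h⟩ else 0

/-- The proportion of the pairs `(a, b)` for which all the systems are nonsingular. -/
noncomputable def c {n : ℕ} (D : Fin n → ℕ) : ℝ :=
  (Nat.card {y : (primes1 D → ZMod 3) × (primes D → ZMod 3) //
    ∀ i, Nonsingular (D i) (ext (primes1 D) y.1) (ext (primes D) y.2)} : ℝ) /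
      3 ^ ((primes1 D).card + (primes D).card)

theorem bs_of {D : ℕ} (h : OneInert D) : Q283.TQ.Bs D := ⟨⟨h.1, h.2.1, h.2.2.1⟩, h.2.2.2⟩

theorem nosplit_iff {n : ℕ} (hC : Pool.Agent.Y703.CT.Cls n) :
    Pool.Agent.Y703.CT.NoSplit n ↔ Good n := by
  rw [good_iff]
  obtain ⟨-, f, -, u, -, -, -, h2⟩ := Pool.Agent.Y703.CT.fin_all hC
  exact h2.symm

/-- **Main result.** -/
theorem result :
    (∀ m : ℕ, IsBase m → Good m → ParityZero m) ∧
    ∀ (n : ℕ) (D : Fin n → ℕ), (∀ i, OneInert (D i)) →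
      (∀ l : ℕ, l.Prime → l % 3 = 1 → Allowed D l → ∀ i, IsBase (D i * l)) ∧
      Filter.Tendsto (fun X : ℕ => (count (Allowed D) X : ℝ) / (count (fun _ => True) X : ℝ))
        Filter.atTop (nhds ((classes D : ℝ) / 3)) ∧
      (0 < classes D →
        Filter.Tendsto (fun X : ℕ => (count (AllGood D) X : ℝ) / (count (Allowed D) X : ℝ))
          Filter.atTop (nhds (c D))) ∧
      ((∀ p : ℕ, p % 3 = 1 → (Finset.univ.filter fun i => p.Prime ∧ p ∣ D i).card ≤ 2) →
        0 < c D) ∧
      (n ≤ 2 → 0 < classes D ∧ 0 < c D) := by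
  refine ⟨fun m hm hg => parity_of_good ((base_iff m).1 hm) hg, fun n D hD => ?_⟩
  have hB : ∀ i, Q283.TQ.Bs (D i) := fun i => bs_of (hD i)
  obtain ⟨h1, h2, h3⟩ := Q283.TQ.main_Q D hB
  have hc : Q283.TQ.cQ D = c D := (Q283.TQ.cEl_eq D).symm
  have hn : Nat.card {e // Q283.TQ.okQ D e} = classes D := Q283.TQ.clsN_eq D
  have hg : ∀ X : ℕ, Q283.TQ.CN (Q283.TQ.GoodQ D) X = count (AllGood D) X := by
    intro X
    unfold Q283.TQ.CN count
    congr 1
    refine Finset.filter_congr fun l _ => ?_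
    refine and_congr_right fun hl => ?_
    unfold Q283.TQ.GoodQ AllGood Allowed
    rw [← forall_and]
    refine forall_congr' fun i => ?_
    constructor
    · rintro ⟨g1, g2, g3, g4⟩
      refine ⟨⟨g1, g2, g3⟩, ?_⟩
      have hC := (Q283.TQ.cls_iff (Q283.TQ.bs_mul (hB i) hl.1 hl.2 g1)).2 ⟨g2, g3⟩
      exact (nosplit_iff hC).1 g4
    · rintro ⟨⟨g1, g2, g3⟩, g4⟩
      refine ⟨g1, g2, g3, ?_⟩
      have hC := (Q283.TQ.cls_iff (Q283.TQ.bs_mul (hB i) hl.1 hl.2 g1)).2 ⟨g2, g3⟩
      exact (nosplit_iff hC).2 g4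
  rw [hn] at h1 h2
  rw [hc] at h2 h3
  have h4 : (∀ p : ℕ, p % 3 = 1 → (Finset.univ.filter fun i => p.Prime ∧ p ∣ D i).card ≤ 2) →
      0 < c D := by
    intro h
    refine h3 fun p hp => ?_
    refine le_trans (le_of_eq ?_) (h p hp)
    congr 1
    refine Finset.filter_congr fun i _ => ?_
    rw [Nat.mem_primeFactors]
    exact ⟨fun h => ⟨h.1, h.2.1⟩, fun h => ⟨h.1, h.2, (hD i).1⟩⟩
  refine ⟨fun l hl h3 ha i => (base_iff _).2 ((Q283.TQ.cls_iff (Q283.TQ.bs_mul (hB i) hl h3 (ha i).1)).2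
    ⟨(ha i).2.1, (ha i).2.2⟩), h1, fun h => ?_, h4, fun h => ⟨Q283.TQ.clsN_pos D h, h4 fun p _ => ?_⟩⟩
  · have h5 := h2 h
    simp only [hg] at h5
    exact h5
  · refine (Finset.card_le_univ _).trans ?_
    rw [Fintype.card_fin]
    exact h

end Pool.Agent.Results.MP_577099_nt.PrimeTwists
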