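import Mathlib
import Pool.Agent.Q1.CD.Par
import Pool.Agent.Q283.NK.G1

/-!
# The parity conjecture for cubic twists inside the divisors of almost every integer

`E_n : y² + n y = x³` is `3`-isogenous to the cubic twist `x³ + y³ = n`. A number `n` is a BASE number if it
is cube-free, prime to `3`, not `±1` modulo `9`, with exactly one prime divisor `2` modulo `3`; it is GOOD if
`E_n(ℚ)` is finite and `Ш(E_n/ℚ)[3^∞] = 0`. `ParityZero n`: the rank of `E_n(ℚ)` is `0`, the `L`-function
(Euler product over all primes) is entire and not `0` at `s = 1`, and every sign `w` of a functional equation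
`Λ(s) = w Λ(2 - s)`, `Λ(s) = N^(s/2) (2π)^(-s) Γ(s) L(E_n, s)`, `N > 0`, is `1 = (-1)^rank`. If a base number
`n` is good, then `ParityZero n`.

For a positive integer `D` let `D'` be the product of its prime divisors `1` modulo `3`.

THERE IS ONE SET `S` of positive integers, of NATURAL DENSITY `1`, such that the following holds for all
numbers `n` and EVERY finite family of forms `F_j(d) = N_j d_1 ^ e_j1 ⋯ d_n ^ e_jn` (`j = 1, ..., M`; `N_j` a
base number, `e_j ≠ 0`; the values are made cube-free) without the trivial relations `F_j = F_l` and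
`F_j F_l = cube` (`j ≠ l`), for every `ε > 0`, all large `D` in `S` and all residue classes
`a = (a_1, ..., a_n)` modulo `9` with no `F_j(a)` equal to `±1` modulo `9`: let `d = (d_1, ..., d_n)` run
through the tuples of divisors `d_i ≡ a_i` modulo `9` of `D'²` (if there are any, they are at least the share
`3 ^ (-n)` of all tuples; `a = (1, ..., 1)` always has some).
(1) For every subset `A` of the family the share of the `d` for which exactly the `F_j(d)` with `j` in `A`
    are good is within `ε` of `c ^ |A| (1 - c) ^ (M - |A|)`, `c = ∏_{i ≥ 1} (1 - 3^{-i})`,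
    `0.56 < c < 0.5602`.
(2) The parity conjecture holds, with rank `0`, for all the `F_j(d)` at once for a share `≥ c ^ M - ε` of the
    `d`, and for one of them at least for a share `≥ 1 - (1 - c) ^ M - ε`.
(3) For `M > 0` and `η > 0` the share of the `d` for which `ParityZero` holds for at most `(c - η) M` of the
    `F_j(d)` is at most `2 exp (- η² M / 4) + ε`.
-/

set_option autoImplicit false

open scoped Classical

namespace Pool.Agent.Results.MP_577099_nt.TwistsInsideDivisors

open Filter
open Pool.Agent.Q1.CD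

/-- The product of the prime divisors `1` modulo `3` of `D`. -/
def splitPart (D : ℕ) : ℕ := ∏ p ∈ D.primeFactors.filter (fun p => p % 3 = 1), p

/-- The divisors in the residue class `a` modulo `9` of the square of the split part of `D`. -/
def divs (a D : ℕ) : Finset ℕ := (splitPart D ^ 2).divisors.filter fun d => d % 9 = a

/-- The tuples of divisors in the residue classes `a`. -/
def tuples {n : ℕ} (a : Fin n → ℕ) (D : ℕ) : Finset (Fin n → ℕ) :=
  Fintype.piFinset fun i => divs (a i) D

/-- The form `d_1 ^ e_1 ⋯ d_n ^ e_n` with exponents `0, 1, 2`. -/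
def form {n : ℕ} (e : Fin n → ZMod 3) (d : Fin n → ℕ) : ℕ := ∏ i, d i ^ (e i).val

/-- No trivial relations: no `e_j` is zero, and for `j ≠ l` neither are the forms equal nor is their
product a cube identically. -/
def Unrelated {M n : ℕ} (N : Fin M → ℕ) (e : Fin M → Fin n → ZMod 3) : Prop :=
  (∀ j, e j ≠ 0) ∧ ∀ j l, j ≠ l →
    ¬ (e l = e j ∧ N l = N j) ∧ ¬ (e l = -e j ∧ ∃ b : ℕ, N j * N l = b ^ 3)

/-- The vector of the values of the forms: the cube-free parts of the `N_j d_1 ^ e_j1 ⋯ d_n ^ e_jn`. -/
def values {M n : ℕ} (N : Fin M → ℕ) (e : Fin M → Fin n → ZMod 3) (d : Fin n → ℕ) : Fin M → ℕ :=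
  fun j => cubeFree (N j * form (e j) d)

/-- The share of the tuples of divisors in the residue classes `a` for which the vector of the values has
the property `P`. -/
noncomputable def share {M n : ℕ} (N : Fin M → ℕ) (e : Fin M → Fin n → ZMod 3) (a : Fin n → ℕ)
    (D : ℕ) (P : (Fin M → ℕ) → Prop) : ℝ :=
  (((tuples a D).filter fun d => P (values N e d)).card : ℝ) / (tuples a D).card

/-- the number of the `j` for which the parity conjecture holds for `v j` with rank `0` -/
noncomputable def number {M : ℕ} (v : Fin M → ℕ) : ℕ :=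
  (Finset.univ.filter fun j => ParityZero (v j)).card

/-- the number of the `D ≤ X` with the property `P` -/
noncomputable def count (P : ℕ → Prop) (X : ℕ) : ℕ := ((Finset.Icc 1 X).filter P).card

/-- `c = ∏_{i ≥ 1} (1 - 3^{-i})` -/
noncomputable def c : ℝ := ∏' i : ℕ, (1 - (1 / 3 : ℝ) ^ (i + 1))

section proof

open Q283.Q3B Q283.Q3N Q283.ND Q283.NJ Q283.NK
open Q283.Q3 (cq cq_eq cq_ge sum_cq cq_zero)

theorem mem_tuples {n : ℕ} {a : Fin n → ℕ} {D : ℕ} {d : Fin n → ℕ} :
    d ∈ tuples a D ↔ ∀ i, d i ∈ divs (a i) D := by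
  unfold tuples
  rw [Fintype.mem_piFinset]

theorem tuples_eq {n : ℕ} (a : Fin n → ℕ) (D : ℕ) : tuples a D = DkK a (sp D) := by
  ext d
  rw [mem_tuples, mem_DkK]
  exact Iff.rfl

/-- the cube-free part of a product of divisors -/
theorem cls_form {n : ℕ} {N D : ℕ} {e : Fin n → ZMod 3} {d : Fin n → ℕ}
    (hN : Pool.Agent.Y703.CT.Cls N) (hd : ∀ i, d i ∣ splitPart D ^ 2) (h1 : N * form e d % 9 ≠ 1)
    (h8 : N * form e d % 9 ≠ 8) : Pool.Agent.Y703.CT.Cls (cubeFree (N * form e d)) ∧
      N * form e d ≠ 0 := by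
  have hS : ∀ p ∈ (sp D).primeFactors, p.Prime := fun p hp => Nat.prime_of_mem_primeFactors hp
  have h0 : sp D ≠ 0 := (sp_sqf D).ne_zero
  have hd0 : ∀ i, d i ≠ 0 := fun i h => pow_ne_zero 2 h0 (zero_dvd_iff.1 (h ▸ hd i))
  have hf0 : form e d ≠ 0 := fo_ne hd0
  have hp : ∀ p : ℕ, p.Prime → p ∣ form e d → p % 3 = 1 := by
    intro p hp hpd
    obtain ⟨i, -, hi⟩ := (hp.prime.dvd_finsetProd_iff _).1 hpd
    exact (sp_ac D).2 p hp (hp.dvd_of_dvd_pow ((hp.dvd_of_dvd_pow hi).trans (hd i)))
  obtain ⟨M, c, g1, g2, g3, -⟩ := Q283.MC.cf_bs (N := N) (R := form e d) ⟨hN.1, hN.2.2.2⟩ hf0 hp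
  have hn : N * form e d ≠ 0 := mul_ne_zero hN.1.1 hf0
  have h2 : M = cf (N * form e d) := cf_unique (g1.symm.trans (cf_mul hn)) (by rw [← g1]; exact hn)
    g2.1.2.2 (cf_free _)
  refine ⟨?_, hn⟩
  show Pool.Agent.Y703.CT.Cls (cf (N * form e d))
  rw [← h2]
  exact ⟨g2.1, by rw [g3]; exact h1, by rw [g3]; exact h8, g2.2⟩

theorem form_mod {n : ℕ} {D : ℕ} {e : Fin n → ZMod 3} {a d : Fin n → ℕ} (hd : d ∈ tuples a D)
    (N : ℕ) : N * form e d % 9 = N * form e a % 9 := by
  have h1 : ∀ i, d i % 9 = a i := fun i => (Finset.mem_filter.1 (mem_tuples.1 hd i)).2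
  have h2 : Nat.ModEq 9 (form e d) (form e a) := by
    unfold form
    rw [← ZMod.natCast_eq_natCast_iff]
    push_cast
    refine Finset.prod_congr rfl fun i _ => ?_
    rw [← h1 i, ZMod.natCast_mod]
  exact (Nat.ModEq.refl N).mul h2

theorem tuple_dvd {n : ℕ} {D : ℕ} {a d : Fin n → ℕ} (hd : d ∈ tuples a D) (i : Fin n) :
    d i ∣ splitPart D ^ 2 :=
  ((mem_Dk (k := a i) (sp_sqf D)).1 (mem_tuples.1 hd i)).1

/-- the cube-free part of a product of divisors in the classes -/
theorem cls_of {n : ℕ} {N D : ℕ} {e : Fin n → ZMod 3} {a d : Fin n → ℕ}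
    (hN : Pool.Agent.Y703.CT.Cls N) (h1 : N * form e a % 9 ≠ 1)
    (h8 : N * form e a % 9 ≠ 8) (hd : d ∈ tuples a D) :
    Pool.Agent.Y703.CT.Cls (cubeFree (N * form e d)) ∧ N * form e d ≠ 0 :=
  cls_form hN (tuple_dvd hd) (by rw [form_mod hd]; exact h1) (by rw [form_mod hd]; exact h8)

/-- the shares -/
theorem share_eq {M n : ℕ} {N : Fin M → ℕ} {e : Fin M → Fin n → ZMod 3} {a : Fin n → ℕ} {D : ℕ}
    {P Q : (Fin M → ℕ) → Prop}
    (h : ∀ d ∈ tuples a D, P (values N e d) ↔ Q (fun j => rr (values N e d j))) :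
    share N e a D P =
      (((DkK a (sp D)).filter fun d => (fun j => rr (cf (N j * fo (e j) d))) ∈ {r | Q r}).card : ℝ) /
        (DkK a (sp D)).card := by
  unfold share
  rw [tuples_eq] at h ⊢
  congr 2
  exact Pool.Agent.XLK.fcc fun d hd => h d hd

theorem share_mono {M n : ℕ} {N : Fin M → ℕ} {e : Fin M → Fin n → ZMod 3} {a : Fin n → ℕ} {D : ℕ}
    {P Q : (Fin M → ℕ) → Prop} (h : ∀ d ∈ tuples a D, P (values N e d) → Q (values N e d)) :
    share N e a D P ≤ share N e a D Q := by
  unfold share
  refine div_le_div_of_nonneg_right ?_ (Nat.cast_nonneg _)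
  rw [Nat.cast_le]
  refine Finset.card_le_card fun d hd => ?_
  rw [Finset.mem_filter] at hd ⊢
  exact ⟨hd.1, h d hd.1 hd.2⟩

theorem share_not {M n : ℕ} {N : Fin M → ℕ} {e : Fin M → Fin n → ZMod 3} {a : Fin n → ℕ} {D : ℕ}
    (hne : (tuples a D).Nonempty)
    (P : (Fin M → ℕ) → Prop) : share N e a D P = 1 - share N e a D fun n => ¬ P n := by
  unfold share
  have hpos : (0 : ℝ) < (tuples a D).card := by exact_mod_cast Finset.card_pos.2 hne
  have h := Finset.card_filter_add_card_filter_not (s := tuples a D)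
    (fun d => P (values N e d))
  have h' : (((tuples a D).filter fun d => P (values N e d)).card : ℝ) +
      (((tuples a D).filter fun d => ¬ P (values N e d)).card : ℝ) =
      (tuples a D).card := by exact_mod_cast h
  rw [eq_sub_iff_add_eq, ← add_div]
  refine (congrArg (fun x : ℝ => x / ((tuples a D).card : ℝ)) ?_).trans (div_self hpos.ne')
  refine Eq.trans ?_ h'
  congr 2
  exact Pool.Agent.XLK.fcc fun _ _ => Iff.rfl

end proof

open Q283.Q3B Q283.Q3N Q283.ND Q283.NJ Q283.NK in
open Q283.Q3 (cq cq_eq cq_ge sum_cq cq_zero) in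
/-- **Main result.** -/
theorem result :
    (∀ n : ℕ, IsBase n → Good n → ParityZero n) ∧
    (∀ (n N D : ℕ) (e : Fin n → ZMod 3) (d : Fin n → ℕ), IsBase N → (∀ i, d i ∣ splitPart D ^ 2) →
      N * form e d % 9 ≠ 1 → N * form e d % 9 ≠ 8 →
      IsBase (cubeFree (N * form e d)) ∧ ∃ b : ℕ, N * form e d = cubeFree (N * form e d) * b ^ 3) ∧
    (∀ (n : ℕ) (a : Fin n → ℕ) (D : ℕ), (tuples (fun _ : Fin n => 1) D).Nonempty ∧
      ((tuples a D).Nonempty →
        3 ^ (n * (splitPart D).primeFactors.card) ≤ 3 ^ n * (tuples a D).card)) ∧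
    (∃ S : ℕ → Prop, Tendsto (fun X : ℕ => (count S X : ℝ) / X) atTop (nhds 1) ∧
      ∀ (M n : ℕ) (N : Fin M → ℕ) (e : Fin M → Fin n → ZMod 3), (∀ j, IsBase (N j)) →
      Unrelated N e → ∀ ε : ℝ, 0 < ε → ∃ D₀ : ℕ, ∀ D : ℕ, D₀ ≤ D → S D →
        ∀ a : Fin n → ℕ, (∀ j, N j * form (e j) a % 9 ≠ 1 ∧ N j * form (e j) a % 9 ≠ 8) →
          (tuples a D).Nonempty →
          (∀ A : Finset (Fin M), |share N e a D (fun v => ∀ j, (Good (v j) ↔ j ∈ A)) -
            c ^ A.card * (1 - c) ^ (M - A.card)| ≤ ε) ∧
          c ^ M - ε ≤ share N e a D (fun v => ∀ j, ParityZero (v j)) ∧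
          1 - (1 - c) ^ M - ε ≤ share N e a D (fun v => ∃ j, ParityZero (v j)) ∧
          (0 < M → ∀ η : ℝ, 0 < η → share N e a D (fun v => (number v : ℝ) / M ≤ c - η) ≤
            2 * Real.exp (-(η ^ 2 * M / 4)) + ε)) ∧
    0.56 < c ∧ c < 0.5602 := by
  have hc3 : c = Pool.Agent.Y703.CX.c3 := rfl
  have hc1 : 0.56 < c ∧ c < 0.5602 := by
    rw [hc3]
    exact ⟨Q283.ND.c3_lt.2, Q283.ND.c3_lt.1⟩
  refine ⟨fun n hn hg => parity_of_good ((base_iff n).1 hn) hg, fun n N D e d hN hd h1 h8 => ⟨?_, ?_⟩,
    fun n a D => ⟨?_, fun h => ?_⟩, ?_, hc1⟩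
  · exact (base_iff _).2 (cls_form ((base_iff N).1 hN) hd h1 h8).1
  · exact ⟨_, cf_mul (cls_form ((base_iff N).1 hN) hd h1 h8).2⟩
  · obtain ⟨x, hx⟩ := one_mem (sp_ac D)
    exact ⟨fun _ => x, mem_tuples.2 fun _ => hx⟩
  · rw [tuples_eq] at h ⊢
    have h1 := DkK_card (sp_ac D) h
    rw [Fintype.card_fin] at h1
    exact h1
  · obtain ⟨S, hS, hS', hJ, hL⟩ := mainKC
    refine ⟨S, ?_, fun M n N e hN hinj ε hε => ?_⟩
    · have h1 := Q155.NL.tendsto_of_alm (C := fun _ => True) ⟨1, le_rfl, trivial⟩ hS
      refine h1.congr fun X => ?_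
      have h2 : Q155.NL.cnt (fun _ => True) X = X := by
        have h0 : Q155.NL.cs (fun _ => True) X = Finset.Icc 1 X := by
          ext D
          rw [Q155.NL.mem_cs, Finset.mem_Icc]
          exact ⟨fun h => h.1, fun h => ⟨h, trivial⟩⟩
        unfold Q155.NL.cnt
        rw [h0, Nat.card_Icc]
        omega
      rw [h2]
      congr 2
      unfold Q155.NL.cnt Q155.NL.cs count
      congr 1
      ext D
      simp
    · have hC : ∀ j, Pool.Agent.Y703.CT.Cls (N j) := fun j => (base_iff (N j)).1 (hN j)
      have hI : Ind N e := ind_of hC hinj.1 hinj.2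
      obtain ⟨e₁, he₁⟩ : ∃ e₁ : ℝ, e₁ = ε / 2 ^ M := ⟨_, rfl⟩
      have he0 : 0 < e₁ := by
        rw [he₁]
        positivity
      have hee : 2 ^ M * e₁ ≤ ε := by
        rw [he₁, mul_div_cancel₀ _ (by positivity)]
      have hea : e₁ ≤ ε := (le_mul_of_one_le_left he0.le (one_le_pow₀ (by norm_num))).trans hee
      obtain ⟨D₀, hD₀⟩ := eventually_atTop.1 (hJ M n N e hC hI e₁ he0)
      refine ⟨D₀, fun D hD hSD a ha hne => ?_⟩
      have hJD := hD₀ D hD
      have hJa := hJD hSD a (fun j => (ha j).1) (fun j => (ha j).2)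
      have hne' : (DkK a (sp D)).Nonempty := by rw [← tuples_eq]; exact hne
      have hpos : 0 < (DkK a (sp D)).card := Finset.card_pos.2 hne'
      have hpos' : (0 : ℝ) < (DkK a (sp D)).card := by exact_mod_cast hpos
      have hcl : ∀ d ∈ tuples a D, ∀ j, Pool.Agent.Y703.CT.Cls (values N e d j) :=
        fun d hd j => (cls_of (hC j) (ha j).1 (ha j).2 hd).1
      have hrr : ∀ d ∈ tuples a D, ∀ i, (Good (values N e d i) ↔ rr (values N e d i) = 0) :=
        fun d hd i => (rr_zero (hcl d hd i)).symm
      have hgp : ∀ d ∈ tuples a D, ∀ i, Good (values N e d i) → ParityZero (values N e d i) :=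
        fun d hd i h => parity_of_good (hcl d hd i) h
      have hA : ∀ A : Finset (Fin M), |share N e a D (fun v => ∀ j, (Good (v j) ↔ j ∈ A)) -
            c ^ A.card * (1 - c) ^ (M - A.card)| ≤ e₁ := by
        intro A
        rw [share_eq (Q := fun r => ∀ k, (r k = 0 ↔ k ∈ A)) fun d hd =>
          forall_congr' fun i => by rw [hrr d hd i]]
        have h2 := div_abs hpos' (hJa {r | ∀ k, (r k = 0 ↔ k ∈ A)})
        have h3 : msJ {r : Fin M → ℕ | ∀ k, (r k = 0 ↔ k ∈ A)} =
            c ^ A.card * (1 - c) ^ (M - A.card) := by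
          have h4 := Q283.Q3A.meas_A A
          rw [cq_zero, ← hc3] at h4
          exact h4
        rw [h3] at h2
        exact h2
      have hpat : ∀ J : ℕ → Prop, |share N e a D (fun v =>
          J (Finset.univ.filter fun j => Good (v j)).card) -
          ∑ A : Finset (Fin M), (if J A.card then wt c A else 0)| ≤ ε := by
        intro J
        have hA' : ∀ A : Finset (Fin M), |(((tuples a D).filter fun d =>
            ∀ k, (Good (values N e d k) ↔ k ∈ A)).card : ℝ) / (tuples a D).card - wt c A| ≤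
              e₁ := by
          intro A
          have h2 := hA A
          unfold share at h2
          have h3 : ((tuples a D).filter fun d => ∀ k, (Good (values N e d k) ↔ k ∈ A)).card =
              ((tuples a D).filter fun d => (fun v : Fin M → ℕ => ∀ j, (Good (v j) ↔ j ∈ A))
                (values N e d)).card :=
            Pool.Agent.XLK.fcc fun d _ => Iff.rfl
          rw [h3]
          unfold wt
          convert h2
        have h2 := pat_fin (tuples a D) M (fun j d => Good (values N e d j)) (p := c) hA' J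
        have h3 : share N e a D (fun v => J (Finset.univ.filter fun j => Good (v j)).card) =
            (((tuples a D).filter fun d =>
            J (Finset.univ.filter fun k => Good (values N e d k)).card).card : ℝ) /
              (tuples a D).card := by
          unfold share
          congr 2
        rw [h3]
        exact h2.trans hee
      refine ⟨fun A => (hA A).trans hea, ?_, ?_, fun hM η hη => ?_⟩
      · have h2 := (abs_le.1 (hA Finset.univ)).1
        rw [Finset.card_univ, Fintype.card_fin, Nat.sub_self, pow_zero, mul_one] at h2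
        have h3 : share N e a D (fun v => ∀ j, (Good (v j) ↔ j ∈ (Finset.univ : Finset (Fin M)))) ≤
            share N e a D (fun v => ∀ j, ParityZero (v j)) :=
          share_mono fun d hd h i => hgp d hd i ((h i).2 (Finset.mem_univ i))
        linarith
      · have h2 := (abs_le.1 (hA ∅)).2
        rw [Finset.card_empty, Nat.sub_zero, pow_zero, one_mul] at h2
        have h3 : share N e a D (fun v => ∃ j, Good (v j)) ≤
            share N e a D (fun v => ∃ j, ParityZero (v j)) :=
          share_mono fun d hd ⟨i, h⟩ => ⟨i, hgp d hd i h⟩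
        have h4 : share N e a D (fun v => ¬ ∃ j, Good (v j)) ≤
            share N e a D (fun v => ∀ j, (Good (v j) ↔ j ∈ (∅ : Finset (Fin M)))) :=
          share_mono fun d _ h i => by
            refine ⟨fun h' => absurd ⟨i, h'⟩ h, fun h' => absurd h' (Finset.notMem_empty i)⟩
        rw [share_not hne] at h3
        linarith
      · have h2 := (abs_le.1 (hpat fun m => η ≤ |(m : ℝ) / M - c|)).2
        have h3 := wt_tail (p := c) (by linarith [hc1.1]) (by linarith [hc1.2]) hM hη
        have h4 : share N e a D (fun v => (number v : ℝ) / M ≤ c - η) ≤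
            share N e a D (fun v => η ≤ |((Finset.univ.filter fun j => Good (v j)).card : ℝ) / M - c|) :=
          share_mono fun d hd h => by
            have h5 : (Finset.univ.filter fun j => Good (values N e d j)).card ≤
                number (values N e d) := by
              unfold number
              refine Finset.card_le_card fun j hj => ?_
              rw [Finset.mem_filter] at hj ⊢
              exact ⟨hj.1, hgp d hd j hj.2⟩
            have h6 : ((Finset.univ.filter fun j => Good (values N e d j)).card : ℝ) / M ≤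
                (number (values N e d) : ℝ) / M :=
              div_le_div_of_nonneg_right (by exact_mod_cast h5) (Nat.cast_nonneg _)
            rw [le_abs]
            right
            linarith
        linarith

end Pool.Agent.Results.MP_577099_nt.TwistsInsideDivisors
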